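import Pool.Agent.QSB.StmtsB

/-!
# TPR of squad QSB (MP_dc0713_gt): the top roots (version of `Helper71_QSN/TPR.lean` for `MB`)
-/

set_option autoImplicit false

namespace Pool.Agent.QSB.H85

open Matrix Finset Pool.Agent.QSX Pool.Agent.QSN Pool.Agent.QSB

section

variable {X : Dat} (hX : MB X)

/-- a nonzero bracket has a factor with `p = q = 1` -/
theorem exists_factor (hBRN : Pool.Agent.QSB.BrnStmt) (l l' : hX.ι) (hne : hX.Np l l')
    (h : hX.e l * hX.e l' - hX.e l' * hX.e l ≠ 0) :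
    ∃ t ∈ hX.L l l', t.2.1 = 1 ∧ t.2.2.1 = 1 ∧ hX.rt t.1 = hX.rt l + hX.rt l' ∧
      hX.comp t.1 = hX.comp l := by
  classical
  rw [hBRN X hX l l' hne] at h
  by_contra hcon
  push Not at hcon
  apply h
  unfold MB.br
  have : ((hX.L l l').filter fun t => t.2.1 = 1 ∧ t.2.2.1 = 1) = [] := by
    rw [List.filter_eq_nil_iff]
    intro t ht h2
    simp only [decide_eq_true_eq] at h2
    have h3 := hX.L_rt l l' t ht
    refine hcon t ht h2.1 h2.2 ?_ (hX.L_comp l l' t ht).1
    rw [h3.2.2, h2.1, h2.2]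
    simp
  rw [this]
  simp

theorem le_top (hBRN : Pool.Agent.QSB.BrnStmt) (a : X.b) (ha : ∀ l, 0 < hX.rt l a) (l : hX.ι) :
    hX.rt l a ≤ hX.rt (hX.top (hX.comp l)) a := by
  classical
  obtain ⟨l1, hl1, hmax⟩ := Finset.exists_max_image
    (Finset.univ.filter fun k => hX.comp k = hX.comp l) (fun k => hX.rt k a)
    ⟨l, by simp⟩
  simp only [Finset.mem_filter, Finset.mem_univ, true_and] at hl1 hmax
  have htop : hX.rt l1 = hX.rt (hX.top (hX.comp l1)) := by
    by_contra hne
    have h0 := hX.climb l1 hne (hX.e l1) (Submodule.subset_span ⟨l1, rfl, rfl⟩) ?_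
    · exact hX.lin.ne_zero l1 h0
    · intro k hk
      by_contra hbr
      have hk' : hX.Np k l1 := hk
      obtain ⟨t, ht, -, -, hrt, hcomp⟩ := exists_factor hX hBRN l1 k (hX.np_symm hk') hbr
      have h1 := hmax t.1 (by rw [hcomp, hl1])
      rw [hrt] at h1
      have h2 := ha k
      simp only [LinearMap.add_apply] at h1
      linarith
  have := hmax l rfl
  rw [htop, hl1] at this
  exact this

theorem top_comm (hWTX : Pool.Agent.QSB.WtxStmt) (hBRN : Pool.Agent.QSB.BrnStmt) (t : hX.ι)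
    (ht : hX.rt t = hX.rt (hX.top (hX.comp t))) (k : hX.ι) :
    hX.e t * hX.e k = hX.e k * hX.e t := by
  classical
  obtain ⟨a, ha⟩ := hX.pos
  by_cases hk : hX.Np k t
  · by_contra hbr
    have hbr' : hX.e t * hX.e k - hX.e k * hX.e t ≠ 0 := fun h => hbr (sub_eq_zero.mp h)
    obtain ⟨s, hs, -, -, hrt, hcomp⟩ := exists_factor hX hBRN t k (hX.np_symm hk) hbr'
    have h1 := le_top hX hBRN a ha s.1
    rw [hcomp, hrt, ← ht] at h1
    have h2 := ha k
    simp only [LinearMap.add_apply] at h1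
    linarith
  · obtain ⟨c, hc⟩ := hX.np_iff.1 hk
    have hzn : hX.e t * hX.e k - hX.e k * hX.e t ∈ X.n := X.lie _ (hX.e_mem t) _ (hX.e_mem k)
    have hzw : ∀ d : X.b, diagonal (d : Fin X.m → ℝ) * (hX.e t * hX.e k - hX.e k * hX.e t) -
        (hX.e t * hX.e k - hX.e k * hX.e t) * diagonal (d : Fin X.m → ℝ) =
        (hX.rt t + hX.rt k) d • (hX.e t * hX.e k - hX.e k * hX.e t) := by
      intro d
      have h1 := hX.wt t d
      have h2 := hX.wt k d
      rw [LinearMap.add_apply]
      set D := diagonal (d : Fin X.m → ℝ)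
      have e1 : D * hX.e t = hX.e t * D + hX.rt t d • hX.e t := by rw [← h1]; abel
      have e2 : D * hX.e k = hX.e k * D + hX.rt k d • hX.e k := by rw [← h2]; abel
      have : D * (hX.e t * hX.e k - hX.e k * hX.e t) =
          (hX.e t * hX.e k - hX.e k * hX.e t) * D +
            (hX.rt t d + hX.rt k d) • (hX.e t * hX.e k - hX.e k * hX.e t) := by
        rw [mul_sub, ← mul_assoc, ← mul_assoc, e1, e2, add_mul, add_mul, mul_assoc, mul_assoc,
          e1, e2]
        simp only [mul_add, sub_mul, mul_smul_comm, smul_mul_assoc, mul_assoc, add_smul,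
          smul_sub]
        abel
      rw [this]; abel
    have hspan := hWTX X hX (hX.rt t + hX.rt k) _ hzn hzw
    by_cases hex : ∃ s, hX.rt s = hX.rt t + hX.rt k
    · exfalso
      obtain ⟨s, hs⟩ := hex
      have hs' : hX.rt s = (1 + c) • hX.rt t := by rw [hs, hc, add_smul, one_smul]
      have hcomp := hX.comp_rt s t _ hs'
      have h1 := le_top hX hBRN a ha s
      rw [hcomp, hs, ← ht] at h1
      have h2 := ha k
      simp only [LinearMap.add_apply] at h1
      linarith
    · have hemp : {s | hX.rt s = hX.rt t + hX.rt k} = (∅ : Set hX.ι) := by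
        ext s
        simp only [Set.mem_setOf_eq, Set.mem_empty_iff_false, iff_false]
        exact fun h => hex ⟨s, h⟩
      rw [hemp, Set.image_empty, Submodule.span_empty, Submodule.mem_bot] at hspan
      exact sub_eq_zero.mp hspan

end

/-- the row `TPR` -/
theorem tpr (hWTX : Pool.Agent.QSB.WtxStmt) (hBRN : Pool.Agent.QSB.BrnStmt) :
    Pool.Agent.QSB.TprStmt := by
  intro X hX
  obtain ⟨a, ha⟩ := hX.pos
  refine ⟨fun a ha l => le_top hX hBRN a ha l, ?_, ?_, ?_⟩
  · intro t ht x hx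
    rw [← hX.span_e] at hx
    refine Submodule.span_induction (p := fun x _ => hX.e t * x = x * hX.e t) ?_ ?_ ?_ ?_ hx
    · rintro _ ⟨k, rfl⟩
      exact top_comm hX hWTX hBRN t ht k
    · simp
    · intro x y _ _ hx hy
      rw [mul_add, add_mul, hx, hy]
    · intro r x _ hx
      rw [mul_smul_comm, smul_mul_assoc, hx]
  · intro l l' hne hsum t ht
    obtain ⟨hp, hq, hrt⟩ := hX.L_rt l l' t ht
    have hcomp := (hX.L_comp l l' t ht).1
    have h1 := le_top hX hBRN a ha t.1
    rw [hcomp, ← hsum, hrt] at h1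
    simp only [LinearMap.add_apply, LinearMap.smul_apply, smul_eq_mul] at h1
    have hl := ha l
    have hl' := ha l'
    have hp' : (1 : ℝ) ≤ t.2.1 := by exact_mod_cast hp
    have hq' : (1 : ℝ) ≤ t.2.2.1 := by exact_mod_cast hq
    have h2 : (t.2.1 : ℝ) = 1 := by
      by_contra hne1
      have : (1 : ℝ) < t.2.1 := lt_of_le_of_ne hp' (Ne.symm hne1)
      nlinarith [mul_pos (sub_pos.mpr this) hl, mul_nonneg (sub_nonneg.mpr hq') hl'.le]
    have h3 : (t.2.2.1 : ℝ) = 1 := by
      by_contra hne1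
      have : (1 : ℝ) < t.2.2.1 := lt_of_le_of_ne hq' (Ne.symm hne1)
      nlinarith [mul_pos (sub_pos.mpr this) hl', mul_nonneg (sub_nonneg.mpr hp') hl.le]
    refine ⟨by exact_mod_cast h2, by exact_mod_cast h3, ?_⟩
    rw [hrt, h2, h3, one_smul, one_smul, hsum]
  · intro l t h
    have hcomp : hX.comp t = hX.comp l := by
      rw [hX.comp_rt t _ _ h, hX.comp_top]
    have h1 := le_top hX hBRN a ha t
    rw [hcomp, h, LinearMap.smul_apply, smul_eq_mul] at h1
    have h2 := ha (hX.top (hX.comp l))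
    linarith

end Pool.Agent.QSB.H85
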