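import Pool.Agent.QSB.StmtsS

/-!
# Squad QSB (MP_dc0713_gt), row SLI: a sum of simple roots which is a multiple of a simple root
-/

set_option autoImplicit false

namespace Pool.Agent.QSB.H85

open Matrix Finset Pool.Agent.QSX Pool.Agent.QSB

theorem sli_aux (hSPR : SprStmt) (X : Dat) (S : Sym X) (α : X.b →ₗ[ℝ] ℝ) (hα : Smp X α)
    (hpos : ∀ β, Smp X β → 0 < β S.a₀) : ∀ L : List (X.b →ₗ[ℝ] ℝ), (∀ β ∈ L, Smp X β) →
    ∃ (v : X.b →ₗ[ℝ] ℝ) (n : ℕ), L.sum = v + (n : ℝ) • α ∧ ip X α v ≤ 0 ∧ 0 ≤ v S.a₀ ∧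
      (v S.a₀ = 0 → ∀ β ∈ L, β = α) := by
  intro L
  induction L with
  | nil =>
    intro _
    refine ⟨0, 0, ?_, ?_, ?_, ?_⟩
    · simp
    · rw [← ip_eq, map_zero, map_zero]
    · simp
    · intro _ β hβ
      exact absurd hβ (List.not_mem_nil)
  | cons β L ih =>
    intro hL
    obtain ⟨v, n, h1, h2, h3, h4⟩ := ih fun γ hγ => hL γ (List.mem_cons_of_mem _ hγ)
    have hβ := hL β List.mem_cons_self
    by_cases hba : β = α
    · refine ⟨v, n + 1, ?_, h2, h3, ?_⟩
      · rw [List.sum_cons, h1, hba]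
        push_cast
        rw [add_smul, one_smul]
        abel
      · intro h γ hγ
        rcases List.mem_cons.1 hγ with h5 | h5
        · rw [h5, hba]
        · exact h4 h γ h5
    · refine ⟨β + v, n, ?_, ?_, ?_, ?_⟩
      · rw [List.sum_cons, h1, add_assoc]
      · rw [ip_add_right]
        have := hSPR X ⟨S⟩ α β hα hβ (Ne.symm hba)
        linarith
      · rw [LinearMap.add_apply]
        have := hpos β hβ
        linarith
      · intro h
        rw [LinearMap.add_apply] at h
        have := hpos β hβ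
        linarith

/-- the row `SLI` -/
theorem sli (hGWB : GwbStmt) (hSPR : SprStmt) : SliStmt := by
  rintro X ⟨S⟩ L α c hL hα hsum
  have hpos : ∀ β, Smp X β → 0 < β S.a₀ := by
    intro β hβ
    obtain ⟨x, hx⟩ := hβ.1
    exact ((hGWB X S).1 β x hx).2
  obtain ⟨v, n, h1, h2, h3, h4⟩ := sli_aux hSPR X S α hα hpos L hL
  apply h4
  have hv : v = (c - n) • α := by
    have h5 : (c - n) • α = c • α - (n : ℝ) • α := sub_smul c (n : ℝ) α
    rw [h5, ← hsum, h1, add_sub_cancel_right]
  have hα0 := hpos α hα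
  have hcn : 0 ≤ c - n := by
    rw [hv, LinearMap.smul_apply, smul_eq_mul] at h3
    by_contra hcon
    push Not at hcon
    have := mul_neg_of_neg_of_pos hcon hα0
    linarith
  have hvv : ip X v v ≤ 0 := by
    have h5 : ip X v v = (c - n) * ip X α v := by
      conv_lhs => rw [hv, ip_smul_left, ← hv]
    rw [h5]
    exact mul_nonpos_of_nonneg_of_nonpos hcn h2
  have hv0 : v = 0 := ip_self_eq_zero (le_antisymm hvv (ip_self_nonneg v))
  rw [hv0, LinearMap.zero_apply]

end Pool.Agent.QSB.H85
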