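import Pool.Agent.QSB.StmtsR

/-!
Squad QSB (MP_dc0713_gt), row `DLT`: the defect vanishes.
-/

set_option autoImplicit false

namespace Pool.Agent.QSB.H85

open Matrix Finset Pool.Agent.QSX Pool.Agent.QSB

/-- the row `DLT` -/
theorem dlt (hBWT : BwtStmt) (hJCB : JcbStmt) (hJCC : JccStmt) : DltStmt := by
  intro X Y T g hTn hTi hg hBr hW hRX hRY hS ρ c x y hx hy
  obtain ⟨bw1, bw2⟩ := hBWT
  -- transport of the roots
  have tr : ∀ (σ : X.b →ₗ[ℝ] ℝ) (z : X.n), RtV X σ (z : Matrix (Fin X.m) (Fin X.m) ℝ) →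
      RtV Y (σ ∘ₗ g) (T z) := by
    intro σ z hz
    refine ⟨hW σ z hz.1, fun h0 => hz.2 ?_⟩
    have h1 : z = 0 := hTi (by rw [h0, map_zero])
    rw [h1]; rfl
  have trI : ∀ (σ : X.b →ₗ[ℝ] ℝ), IsRt X σ → IsRt Y (σ ∘ₗ g) := by
    rintro σ ⟨z, hz⟩
    exact ⟨T ⟨z, hz.1.1⟩, tr σ ⟨z, hz.1.1⟩ hz⟩
  have inj : ∀ (σ τ : X.b →ₗ[ℝ] ℝ), σ ∘ₗ g = τ ∘ₗ g → σ = τ := by
    intro σ τ h
    refine LinearMap.ext fun v => ?_
    obtain ⟨w, rfl⟩ := hg.2 v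
    exact LinearMap.congr_fun h w
  have trN : ∀ (σ τ : X.b →ₗ[ℝ] ℝ), NPr σ τ → NPr (σ ∘ₗ g) (τ ∘ₗ g) := by
    intro σ τ h
    refine ⟨fun d hd => h.1 d (inj _ _ ?_), fun d hd => h.2 d (inj _ _ ?_)⟩
    · rw [hd, LinearMap.smul_comp]
    · rw [hd, LinearMap.smul_comp]
  have hρX : IsRt X ρ := ⟨_, hx⟩
  have hρY : IsRt Y (ρ ∘ₗ g) := trI ρ hρX
  have hc := hRX ρ c hρX ⟨_, hy⟩
  have hc0 : 0 < c := by
    rcases hc with h | h | h <;> rw [h] <;> norm_num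
  -- the defect
  by_contra hne
  have hδ0 : T x * T y - T y * T x - T ⟨_, X.lie x x.2 y y.2⟩ ≠ 0 := by
    intro h
    exact hne (sub_eq_zero.mp h).symm
  have hδw : WtV Y ((1 + c) • (ρ ∘ₗ g))
      (T x * T y - T y * T x - T ⟨_, X.lie x x.2 y y.2⟩) := by
    have h1 := bw1 Y _ _ _ _ (hW ρ x hx.1) (hW (c • ρ) y hy.1)
    have h2 := hW (ρ + c • ρ) ⟨_, X.lie x x.2 y y.2⟩ (bw1 X ρ (c • ρ) _ _ hx.1 hy.1)
    have e1 : ρ ∘ₗ g + (c • ρ) ∘ₗ g = (1 + c) • (ρ ∘ₗ g) := by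
      rw [LinearMap.smul_comp, add_smul, one_smul]
    have e2 : (ρ + c • ρ) ∘ₗ g = (1 + c) • (ρ ∘ₗ g) := by
      rw [LinearMap.add_comp, LinearMap.smul_comp, add_smul, one_smul]
    rw [e1] at h1
    rw [e2] at h2
    refine ⟨Y.n.sub_mem h1.1 h2.1, fun d => ?_⟩
    have h3 := h1.2 d
    have h4 := h2.2 d
    rw [mul_sub, sub_mul, smul_sub, ← h3, ← h4]
    abel
  have hδ : RtV Y ((1 + c) • (ρ ∘ₗ g))
      (T x * T y - T y * T x - T ⟨_, X.lie x x.2 y y.2⟩) := ⟨hδw, hδ0⟩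
  have hc1 : c = 1 := by
    rcases hc with h | h | h
    · exact h
    · exfalso
      have := hRY.ray (ρ ∘ₗ g) (1 + c) hρY ⟨_, hδ⟩
      rw [h] at this
      norm_num at this
    · exfalso
      have := hRY.ray (ρ ∘ₗ g) (1 + c) hρY ⟨_, hδ⟩
      rw [h] at this
      norm_num at this
  have e11 : (1 : ℝ) + c = 2 := by rw [hc1]; norm_num
  rw [e11] at hδ
  -- the case of a `γ`
  have key : ∀ γ : X.b →ₗ[ℝ] ℝ, IsRt X γ → NPr γ ρ → IsRt Y ((2 : ℝ) • (ρ ∘ₗ g) + γ ∘ₗ g) →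
      False := by
    rintro γ ⟨u, hu⟩ hn hI
    exact hRY.inj (ρ ∘ₗ g) (γ ∘ₗ g) _ (T ⟨u, hu.1.1⟩) hρY hδ (tr γ ⟨u, hu.1.1⟩ hu) hI
      (hJCC X Y.m T hBr ρ γ hn c hc0 x y ⟨u, hu.1.1⟩ hx.1 hy.1 hu.1)
  rcases hS with hS3 | hRed
  · rcases hS3 ρ hρX with h | ⟨σ, hσ, h⟩ | h | ⟨γ, hγ, hγ2⟩ | ⟨γ, γ', hγ, hγ', hn, hn', h1, h2, h3⟩
    · exact hne (hJCB X Y.m T hBr ρ h c hc0 x y hx hy.1)
    · have h4 : IsRt Y ((4 : ℝ) • (σ ∘ₗ g)) := by
        have e : (4 : ℝ) • (σ ∘ₗ g) = (2 : ℝ) • (ρ ∘ₗ g) := by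
          rw [h, LinearMap.smul_comp, smul_smul]; norm_num
        rw [e]
        exact ⟨_, hδ⟩
      have := hRY.ray (σ ∘ₗ g) 4 (trI σ hσ) h4
      norm_num at this
    · have hy' : RtV X ρ (y : Matrix (Fin X.m) (Fin X.m) ℝ) := by
        have := hy
        rwa [hc1, one_smul] at this
      obtain ⟨d, hd⟩ := h _ _ hx hy'
      have hyd : y = d • x := Subtype.ext (by rw [hd]; rfl)
      have e0 : (⟨_, X.lie x x.2 y y.2⟩ : X.n) = 0 := by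
        refine Subtype.ext ?_
        change (x : Matrix (Fin X.m) (Fin X.m) ℝ) * y - y * x = 0
        rw [hd, Matrix.mul_smul, Matrix.smul_mul, sub_self]
      apply hne
      rw [e0, map_zero, hyd, map_smul, Matrix.mul_smul, Matrix.smul_mul, sub_self]
    · refine key γ hγ ?_ ?_
      · have aux : ∀ d : ℝ, γ ≠ d • ρ := by
          intro d hd
          have h1 := hRX ρ d hρX (hd ▸ hγ)
          have e : (2 : ℝ) • ρ + γ = (2 + d) • ρ := by rw [hd, add_smul]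
          rw [e] at hγ2
          have h2 := hRX ρ (2 + d) hρX hγ2
          rcases h1 with h | h | h <;> rw [h] at h2 <;> norm_num at h2
        refine ⟨aux, fun d hd => ?_⟩
        have hd0 : d ≠ 0 := by
          intro h0
          exact bw2 X hRX ρ hρX (by rw [hd, h0, zero_smul])
        exact aux d⁻¹ (by rw [hd, smul_smul, inv_mul_cancel₀ hd0, one_smul])
      · have := trI _ hγ2
        rwa [LinearMap.add_comp, LinearMap.smul_comp] at this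
    · have g1 := trI _ h1
      have g2 := trI _ h2
      have g3 := trI _ h3
      rw [LinearMap.add_comp] at g1 g2 g3
      rw [LinearMap.add_comp] at g3
      rcases hRY.two (ρ ∘ₗ g) (γ ∘ₗ g) (γ' ∘ₗ g) hρY ⟨_, hδ⟩ (trI γ hγ) (trI γ' hγ')
        (trN _ _ hn) (trN _ _ hn') g1 g2 g3 with h | h
      · exact key γ hγ hn h
      · exact key γ' hγ' hn' h
  · exact hRed (ρ ∘ₗ g) hρY ⟨_, hδ⟩

end Pool.Agent.QSB.H85
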